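import Pool.Agent.Q28.GS.Sym

/-!
# MP_524776_ag: Chow-Künneth decompositions commuting with an algebra of correspondences
-/

namespace Pool.Agent.Results.MP_524776_ag.DecompositionsWithSymmetry

open Pool.Agent.Q28.GS

/-- Chow-Künneth decompositions commuting with an algebra of correspondences. In the application
`A = CH^d(X × X)` for a smooth projective complex variety `X` of dimension `d`, `B` is the quotient
of `A` by the nil ideal of the algebraically trivial classes (or `B = A`), `V i = H^i(X, ℚ)`,
`N = 2 d`, and `R` is a finite-dimensional semisimple `ℚ`-algebra acting on `X` by correspondences,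
generated by the set `S` (the group algebra of a finite group of automorphisms, Hecke operators, ..).

1. There is a Chow-Künneth decomposition commuting with `R` if and only if there are Chow-Künneth
  projectors `b i` in `B` with `b j ∘ s ∘ b i = 0` for all `s ∈ S` and all `i` before `j`, for some
  ordering of the degrees.
2. In this case the motive `(X, e)` has a Chow-Künneth decomposition for each idempotent `e` of `R`
  (the quotient `X / G` for `R = ℚ[G]` and `e` the average of the elements of the group `G`).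
3. Group algebras of finite groups are separable. -/
theorem result {N : ℕ} {K : Type*} [Ring K] {V : Fin (N + 1) → Type*} [∀ i, AddCommGroup (V i)]
    [∀ i, Module K (V i)] {A B : Type*} [Ring A] [Algebra ℚ A] [Ring B] [Algebra ℚ B]
    {R : Type*} [Ring R] [Algebra ℚ R] (q : A →ₐ[ℚ] B) (hq : Function.Surjective q)
    (hnil : ∀ a, q a = 0 → IsNilpotent a) (ρ : ∀ i, B →+* Module.End K (V i))
    (hR : IsSeparableAlgebra R) (ι : R →ₐ[ℚ] A) (S : Set R) (hS : Algebra.adjoin ℚ S = ⊤) :
    ((∃ p : Fin (N + 1) → A, IsDecomposition (fun i => (ρ i).comp (q : A →+* B)) p ∧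
        ∀ r i, ι r * p i = p i * ι r) ↔
      ∃ (σ : Equiv.Perm (Fin (N + 1))) (b : Fin (N + 1) → B), IsDecomposition ρ b ∧
        ∀ s ∈ S, ∀ i j, σ i < σ j → b j * q (ι s) * b i = 0) ∧
    ((∃ (σ : Equiv.Perm (Fin (N + 1))) (b : Fin (N + 1) → B), IsDecomposition ρ b ∧
        ∀ s ∈ S, ∀ i j, σ i < σ j → b j * q (ι s) * b i = 0) →
      ∀ e : R, e * e = e → ∃ p : Fin (N + 1) → A, OrthogonalIdempotents p ∧ ∑ i, p i = ι e ∧
        (∀ i, ι e * p i = p i ∧ p i * ι e = p i) ∧
        ∀ i j, ρ j (q (p i)) = if i = j then ρ j (q (ι e)) else 0) ∧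
    ∀ (G : Type) [Group G] [Finite G], IsSeparableAlgebra (MonoidAlgebra ℚ G) := by
  have h := finalSym (N := N) q hq hnil ρ hR ι S hS
  refine ⟨h, fun h2 e he => ?_, fun G _ _ => groupAlgebra_separable G⟩
  obtain ⟨p, hp, hpR⟩ := h.mpr h2
  have hee : ι e * ι e = ι e := by rw [← map_mul, he]
  refine ⟨fun i => ι e * p i, ⟨fun i => ?_, fun i j hij => ?_⟩, ?_, fun i => ⟨?_, ?_⟩,
    fun i j => ?_⟩
  · show ι e * p i * (ι e * p i) = ι e * p i
    calc ι e * p i * (ι e * p i) = ι e * (p i * ι e) * p i := by simp only [mul_assoc]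
      _ = ι e * ι e * (p i * p i) := by rw [← hpR]; simp only [mul_assoc]
      _ = ι e * p i := by rw [hee, hp.1.idem i]
  · show ι e * p i * (ι e * p j) = 0
    calc ι e * p i * (ι e * p j) = ι e * (p i * ι e) * p j := by simp only [mul_assoc]
      _ = ι e * ι e * (p i * p j) := by rw [← hpR]; simp only [mul_assoc]
      _ = 0 := by rw [hp.1.ortho hij, mul_zero]
  · rw [← Finset.mul_sum, hp.1.complete, mul_one]
  · rw [← mul_assoc, hee]
  · rw [mul_assoc, ← hpR, ← mul_assoc, hee]
  · have h1 : ρ j (q (p i)) = if i = j then 1 else 0 := hp.2 i j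
    rw [map_mul, map_mul, h1]
    by_cases hij : i = j
    · rw [if_pos hij, if_pos hij, mul_one]
    · rw [if_neg hij, if_neg hij, mul_zero]

end Pool.Agent.Results.MP_524776_ag.DecompositionsWithSymmetry
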