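import Pool.Agent.Q187.CK.Main

/-!
# Chow-Künneth decompositions from one correspondence

`A = CH^d(X × X)` with rational coefficients acts on `V i = H^i(X, ℚ)`, `0 ≤ i ≤ N = 2 d`. A
Chow-Künneth decomposition exists if and only if some correspondence `γ` whose minimal polynomials
`m_i` on the `V i` are pairwise coprime is algebraic over `ℚ`, or has the property that the one
homologically trivial correspondence `(∏ m_i)(γ)` is nilpotent. The projectors are then polynomials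
in `γ`.
-/

set_option autoImplicit false

open Polynomial

namespace Pool.Agent.Results.MP_524776_ag.OneCorrespondence

open Pool.Agent.Q187.CK

theorem result {A : Type} [Ring A] [Algebra ℚ A] {N : ℕ} {V : Fin (N + 1) → Type}
    [∀ i, AddCommGroup (V i)] [∀ i, Module ℚ (V i)] [∀ i, FiniteDimensional ℚ (V i)]
    [Nontrivial (V 0)] (ρ : ∀ i, A →ₐ[ℚ] Module.End ℚ (V i)) :
    (HasCKIn ρ Set.univ ↔ ∃ γ, Separates ρ γ ∧ IsAlgebraic ℚ γ) ∧
    (HasCKIn ρ Set.univ ↔ ∃ γ, Separates ρ γ ∧ IsNilpotent (aeval γ (totalPoly ρ γ))) ∧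
    (∀ γ, Separates ρ γ → (IsAlgebraic ℚ γ ∨ IsNilpotent (aeval γ (totalPoly ρ γ))) →
      HasCKIn ρ (Algebra.adjoin ℚ {γ} : Set A)) ∧
    ∀ (γ : A) (r : ℝ), 0 < r → r ≠ 1 →
      (∀ i, ∀ z : ℂ, aeval z (minpoly ℚ (ρ i γ)) = 0 → ‖z‖ = r ^ (i : ℕ)) →
      (IsAlgebraic ℚ γ ∨ IsNilpotent (aeval γ (totalPoly ρ γ))) →
      HasCKIn ρ (Algebra.adjoin ℚ {γ} : Set A) := by
  have key : ∀ γ, Separates ρ γ → (IsAlgebraic ℚ γ ∨ IsNilpotent (aeval γ (totalPoly ρ γ))) →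
      HasCKIn ρ (Algebra.adjoin ℚ {γ} : Set A) := by
    rintro γ hs (ha | hn)
    · exact hasCK_of_algebraic ρ hs ha
    · exact hasCK_of_algebraic ρ hs (isAlgebraic_of_nilpotent ρ hn)
  refine ⟨⟨fun h => ?_, fun ⟨γ, hs, ha⟩ => (key γ hs (Or.inl ha)).mono ρ (Set.subset_univ _)⟩,
    ⟨fun h => ?_, fun ⟨γ, hs, ha⟩ => (key γ hs (Or.inr ha)).mono ρ (Set.subset_univ _)⟩,
    key, fun γ r hr hr1 hw h =>
      key γ (separates_of_weights ρ hr hr1 hw) h⟩
  · obtain ⟨γ, hs, h0⟩ := exists_of_hasCK ρ h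
    exact ⟨γ, hs, isAlgebraic_of_nilpotent ρ (by rw [h0]; exact IsNilpotent.zero)⟩
  · obtain ⟨γ, hs, h0⟩ := exists_of_hasCK ρ h
    exact ⟨γ, hs, by rw [h0]; exact IsNilpotent.zero⟩

end Pool.Agent.Results.MP_524776_ag.OneCorrespondence
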