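import Pool.Agent.Q28.EN.Order

/-!
# Chow-Kunneth decompositions from projectors which are orthogonal on one side

`𝒱` is a class of smooth projective geometrically irreducible varieties over the field `k` closed
under products (for example all of them), `C` the Chow groups with rational coefficients (in the
form of their formal properties, `IsChowProj`) and `H` a Weil cohomology theory (`IsWeilProj`).

Let `X` be a variety of dimension `d ≥ 2`. Two known theorems about divisors are hypotheses: Murre's
projector onto `H^1(X)` (`HasPicardProjector`), and `Pic^0(T × X) = Pic^0(T) × Pic^0(X)` for curves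
`T` (`SplitPicard`).

`X` has a Chow-Kunneth decomposition if and only if the degrees `2, …, 2d - 2`, without the middle
one `d`, can be ordered in such a way that there are projectors `q_i` onto the cohomology groups of
these degrees with `q_j ∘ q_i = 0` for `i < j`. Nothing is required in the degrees
`0, 1, d, 2d - 1, 2d`, and nothing about `q_i ∘ q_j`. For a threefold it suffices that there are
projectors `p` onto `H^2(X)` and `q` onto `H^4(X)` with `q ∘ p = 0` or `p ∘ q = 0`.

(`C.comp p q` is the composition `q ∘ p`.)
-/

open CategoryTheory AlgebraicGeometry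

set_option autoImplicit false

universe u v w

namespace Pool.Agent.Results.MP_524776_ag.OneSidedProjectors

open Pool.Agent.H914 Pool.Agent.W492.BB Pool.Agent.TH133 Pool.Agent.Q28.EN

/-- Chow-Kunneth decompositions from projectors which are orthogonal on one side. -/
theorem result {k : Type u} [Field k] {𝒱 : VarClass k} (C : TheoryData.{u, v, 0} 𝒱 ℚ)
    [IsChowProj C] {K : Type w} [Field K] (H : WeilTheoryData.{u, v, w} C K) [IsWeilProj H]
    (X : 𝒱.Obj) (hd : 2 ≤ X.dim) (hS : SplitPicard H X) (hM : HasPicardProjector H X) :
    ((∃ π, IsCK H X π) ↔ ∃ (N : ℕ) (e : ℕ → ℕ) (q : ℕ → C.A (X.prod X)),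
      OrderedProjectors H X N e q ∧
      ∀ n, 2 ≤ n → n + 2 ≤ 2 * X.dim → n ≠ X.dim → ∃ i < N, e i = n) ∧
    (X.dim = 3 → ((∃ π, IsCK H X π) ↔ ∃ p q : C.A (X.prod X), ProjectsTo H X 2 p ∧
      ProjectsTo H X 4 q ∧ (C.comp p q = 0 ∨ C.comp q p = 0))) :=
  ⟨ck_iff_order hS hM hd, ck_threefold hS hM⟩

end Pool.Agent.Results.MP_524776_ag.OneSidedProjectors
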